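import Pool.Agent.ASO.StmtsH
import Pool.Agent.Helper63_AT3.INR
import Pool.Agent.Helper3_SOR.XSG

/-!
# Squad ASO, row HRAT: the sum over a line is rational
-/

open scoped BigOperators

noncomputable section

namespace Pool.Agent.PP.SO.H24

open Pool.Agent.Helper51_AWC Pool.Agent.Helper79_WRA Pool.Agent.PP Pool.Agent.PP.KF
open Pool.Agent.PP.K9 Pool.Agent.PP.K9.H97 Pool.Agent.PP.H75 Pool.Agent.PP.T3

attribute [local instance] Ideal.Quotient.field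

/-- the value at the powers of a central element as a sum of roots of unity -/
theorem gv_sum (M : Ideal (integralClosure ℤ ℂ)) [M.IsMaximal] {G : Type} [Group G] [Finite G]
    {u : G} {q : ℕ} (hq : 0 < q) (hu : u ^ q = 1) (b : G → FF M) {ζ : ℂ}
    (hζ : IsPrimitiveRoot ζ q) {χ : G → ℂ} (hχ : χ ∈ Irr G) :
    ∃ m : ℕ → ℤ, ∀ j : ℕ, gv M (Cu u) (u ^ j) b χ =
      ∑ i ∈ Finset.range q, (m i : ℂ) * ζ ^ (i * j) := by
  classical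
  have := Fintype.ofFinite G
  have := Fintype.ofFinite (Cu u)
  obtain ⟨b', hb'⟩ : ∃ b' : Cu u → FF M, b' = fun t : Cu u => b t := ⟨_, rfl⟩
  have hS : (IrrE M b').Finite := irr_finite'.subset (fun θ h => h.1)
  obtain ⟨uC, huC⟩ : ∃ uC : Cu u, (uC : G) = u :=
    ⟨⟨u, Subgroup.mem_centralizer_singleton_iff.2 rfl⟩, rfl⟩
  have hz : ∀ c : Cu u, uC * c = c * uC := by
    intro c
    apply Subtype.ext
    show (uC : G) * c = c * uC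
    rw [huC]
    exact (Subgroup.mem_centralizer_singleton_iff.1 c.2).symm
  have hzq : uC ^ q = 1 := by
    apply Subtype.ext
    rw [Subgroup.coe_pow, huC, hu, Subgroup.coe_one]
  have h1 : ∀ θ ∈ hS.toFinset, ∃ i : ℕ, i < q ∧
      ∀ (j : ℕ) (c : Cu u), θ (uC ^ j * c) = (ζ ^ i) ^ j * θ c := by
    intro θ hθ
    have hθ' : θ ∈ Irr (Cu u) := (hS.mem_toFinset.1 hθ).1
    obtain ⟨k, hk, hkj⟩ := T3.H63.cent_root hθ' hz hzq
    have : NeZero q := ⟨hq.ne'⟩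
    obtain ⟨i, hi, rfl⟩ := hζ.eq_pow_of_pow_eq_one hk
    exact ⟨i, hi, hkj⟩
  have h2 : ∀ θ ∈ hS.toFinset, ∃ m : ℤ,
      (Nat.card (Cu u) : ℂ)⁻¹ * ∑ c : Cu u, χ c * θ c⁻¹ = m := by
    intro θ hθ
    exact KF.H30.mult_int (Cu u) hχ (hS.mem_toFinset.1 hθ).1
  have h3 : ∀ θ ∈ hS.toFinset, ∃ d : ℕ, θ 1 = d := fun θ hθ => by
    obtain ⟨d, -, hd⟩ := irr_one (hS.mem_toFinset.1 hθ).1
    exact ⟨d, hd⟩
  choose! ix hix hix2 using h1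
  choose! mu hmu using h2
  choose! dg hdg using h3
  refine ⟨fun i => ∑ θ ∈ hS.toFinset.filter (fun θ => ix θ = i), (dg θ : ℤ) * mu θ, ?_⟩
  intro j
  have e1 : gv M (Cu u) (u ^ j) b χ = ∑ c : Cu u, eh M b' c * χ (u ^ j * c) := by
    rw [gv, gbv, finsum_eq_sum_of_fintype, hb']
  have e2 : ∀ c : Cu u, eh M b' c =
      (Nat.card (Cu u) : ℂ)⁻¹ * ∑ θ ∈ hS.toFinset, (dg θ : ℂ) * θ c⁻¹ := by
    intro c
    rw [eh, finsum_mem_eq_finite_toFinset_sum _ hS]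
    congr 1
    exact Finset.sum_congr rfl fun θ hθ => by rw [hdg θ hθ]
  have e3 : ∀ θ ∈ hS.toFinset, (Nat.card (Cu u) : ℂ)⁻¹ * ∑ c : Cu u, θ c⁻¹ * χ (u ^ j * c) =
      mu θ * ζ ^ (ix θ * j) := by
    intro θ hθ
    rw [← hmu θ hθ, ← Equiv.sum_comp (Equiv.mulLeft (uC ^ j))
      (fun c : Cu u => χ c * θ c⁻¹), mul_assoc, Finset.sum_mul]
    refine congrArg ((Nat.card (Cu u) : ℂ)⁻¹ * ·) (Finset.sum_congr rfl fun c _ => ?_)
    show θ c⁻¹ * χ (u ^ j * c) = χ ((uC ^ j * c : Cu u) : G) * θ (uC ^ j * c)⁻¹ * ζ ^ (ix θ * j)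
    have a1 : ((uC ^ j * c : Cu u) : G) = u ^ j * c := by
      rw [Subgroup.coe_mul, Subgroup.coe_pow, huC]
    have hcomm : ∀ (c : Cu u), uC ^ j * c = c * uC ^ j := fun c =>
      (Commute.pow_left (hz c) j)
    have a2 : θ c⁻¹ = (ζ ^ (ix θ)) ^ j * θ (uC ^ j * c)⁻¹ := by
      rw [← hix2 θ hθ, mul_inv_rev, ← mul_assoc, hcomm c⁻¹, mul_assoc, mul_inv_cancel, mul_one]
    rw [a1, a2, pow_mul]
    ring
  rw [e1]
  simp only [e2]
  have e4 : ∑ c : Cu u, (Nat.card (Cu u) : ℂ)⁻¹ * (∑ θ ∈ hS.toFinset, (dg θ : ℂ) * θ c⁻¹) *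
      χ (u ^ j * c) = ∑ θ ∈ hS.toFinset, (dg θ : ℂ) * ((Nat.card (Cu u) : ℂ)⁻¹ *
        ∑ c : Cu u, θ c⁻¹ * χ (u ^ j * c)) := by
    simp_rw [Finset.mul_sum, Finset.sum_mul]
    rw [Finset.sum_comm]
    refine Finset.sum_congr rfl fun θ _ => Finset.sum_congr rfl fun c _ => ?_
    ring
  rw [e4, Finset.sum_congr rfl fun θ hθ => by rw [e3 θ hθ]]
  rw [← Finset.sum_fiberwise_of_maps_to (s := hS.toFinset) (t := Finset.range q) (g := ix)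
    (fun θ hθ => Finset.mem_range.2 (hix θ hθ))]
  refine Finset.sum_congr rfl fun i _ => ?_
  rw [Int.cast_sum, Finset.sum_mul]
  refine Finset.sum_congr rfl fun θ hθ => ?_
  rw [(Finset.mem_filter.1 hθ).2]
  push_cast
  ring

/-- splitting off the term of index zero -/
theorem range_split {ℓ : ℕ} (h : 0 < ℓ) (f : ℕ → ℂ) :
    ∑ t ∈ Finset.range ℓ, f t = f 0 + ∑ t ∈ Finset.Icc 1 (ℓ - 1), f t := by
  rw [Finset.range_eq_Ico, Finset.sum_eq_sum_Ico_succ_bot h]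
  have : Finset.Ico (0 + 1) ℓ = Finset.Icc 1 (ℓ - 1) := by
    ext x
    rw [Finset.mem_Ico, Finset.mem_Icc]
    omega
  rw [this]

/-- the sum of the nontrivial powers -/
theorem pow_sum {ℓ : ℕ} (hℓ : 0 < ℓ) {ζ : ℂ} (hζ : IsPrimitiveRoot ζ ℓ) {i : ℕ}
    (hi : i < ℓ) :
    ∑ t ∈ Finset.Icc 1 (ℓ - 1), ζ ^ (i * t) = if i = 0 then (ℓ : ℂ) - 1 else -1 := by
  have h := range_split hℓ (fun t => ζ ^ (i * t))
  by_cases h0 : i = 0
  · subst h0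
    simp only [zero_mul, pow_zero, Finset.sum_const, Finset.card_range, nsmul_eq_mul,
      mul_one] at h
    rw [if_pos rfl]
    simp only [zero_mul, pow_zero, Finset.sum_const, nsmul_eq_mul, mul_one]
    linear_combination -h
  · rw [if_neg h0]
    have h1 : ζ ^ i ≠ 1 := hζ.pow_ne_one_of_pos_of_lt h0 hi
    have h2 : ∑ t ∈ Finset.range ℓ, ζ ^ (i * t) = 0 := by
      have h3 := geom_sum_mul (ζ ^ i) ℓ
      rw [← pow_mul, mul_comm i ℓ, pow_mul, hζ.pow_eq_one, one_pow, sub_self] at h3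
      have h4 := (mul_eq_zero.1 h3).resolve_right (sub_ne_zero.2 h1)
      rw [← h4]
      exact Finset.sum_congr rfl fun t _ => pow_mul _ _ _
    simp only [h2, mul_zero, pow_zero] at h
    linear_combination -h

/-- a rational number of residue zero -/
theorem rat_res {ℓ : ℕ} [hℓ : Fact ℓ.Prime] {M : Ideal (integralClosure ℤ ℂ)} [M.IsMaximal]
    (hM : (ℓ : integralClosure ℤ ℂ) ∈ M) {r : ℚ} (hr : (r : ℂ) ∈ RM M) (h0 : rr M (r : ℂ) = 0) :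
    ∃ q ∈ SOR.Rl ℓ, r = ℓ * q := by
  have hp : ℓ.Prime := hℓ.out
  have h1 : ((r.num : ℤ) : ℂ) = ((r.den : ℤ) : ℂ) * (r : ℂ) := by
    have : (r.num : ℚ) = (r.den : ℚ) * r := by
      rw [mul_comm]
      exact (Rat.mul_den_eq_num r).symm
    have h2 := congrArg (fun x : ℚ => (x : ℂ)) this
    push_cast at h2
    push_cast
    exact h2
  have h2 : rr M ((r.num : ℤ) : ℂ) = 0 := by
    rw [h1, rr_mul (rr_int _).1 hr, h0, mul_zero]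
  have h3 : (ℓ : ℤ) ∣ r.num := (dvd_of_rr hp hM).1 h2
  have h4 : ¬ ℓ ∣ r.den := by
    intro h
    have h5 : ℓ ∣ r.num.natAbs := Int.natCast_dvd.1 h3
    have h6 := Nat.dvd_gcd h5 h
    rw [r.reduced] at h6
    exact hp.one_lt.ne' (Nat.dvd_one.1 h6)
  obtain ⟨k, hk⟩ := h3
  have hd : (r.den : ℚ) ≠ 0 := by exact_mod_cast r.den_nz
  refine ⟨(k : ℚ) / r.den, SOR.H3.rl_of_mul ℓ h4 (a := k) (div_mul_cancel₀ _ hd), ?_⟩
  have h5 : (r.num : ℚ) = ℓ * k := by rw [hk]; push_cast; ring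
  rw [← mul_div_assoc, ← h5, eq_div_iff hd]
  exact Rat.mul_den_eq_num r

section line

variable {V₀ : Type} [CommGroup V₀]

theorem pow_back {ℓ : ℕ} (hℓ : ℓ.Prime) {c : V₀} (hc : c ^ ℓ = 1) {t : ℕ}
    (ht : t ∈ Finset.Icc 1 (ℓ - 1)) : ∃ m : ℕ, (c ^ t) ^ m = c := by
  have h1 := Finset.mem_Icc.1 ht
  have h2 : Nat.Coprime t (orderOf c) := by
    have h3 : Nat.Coprime t ℓ := Nat.Coprime.symm (hℓ.coprime_iff_not_dvd.2 fun h =>
      absurd (Nat.le_of_dvd (by omega) h) (by omega))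
    exact h3.coprime_dvd_right (orderOf_dvd_of_pow_eq_one hc)
  exact exists_pow_eq_self_of_coprime h2

theorem zpowers_line {ℓ : ℕ} (hℓ : ℓ.Prime) {c : V₀} (hc : c ^ ℓ = 1) {t : ℕ}
    (ht : t ∈ Finset.Icc 1 (ℓ - 1)) : Subgroup.zpowers (c ^ t) = Subgroup.zpowers c := by
  obtain ⟨m, hm⟩ := pow_back hℓ hc ht
  refine le_antisymm ?_ ?_
  · rw [Subgroup.zpowers_le]
    exact Subgroup.pow_mem _ (Subgroup.mem_zpowers c) t
  · rw [Subgroup.zpowers_le]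
    have := Subgroup.pow_mem _ (Subgroup.mem_zpowers (c ^ t)) m
    rwa [hm] at this

theorem Es_line {ℓ : ℕ} (hℓ : ℓ.Prime) (E₀ : Subgroup (MulAut V₀)) {c : V₀} (hc : c ^ ℓ = 1)
    {t : ℕ} (ht : t ∈ Finset.Icc 1 (ℓ - 1)) : Es E₀ (c ^ t) = Es E₀ c := by
  obtain ⟨m, hm⟩ := pow_back hℓ hc ht
  ext σ
  constructor
  · rintro ⟨h1, h2⟩
    refine ⟨h1, ?_⟩
    calc σ c = σ ((c ^ t) ^ m) := by rw [hm]
      _ = (σ (c ^ t)) ^ m := map_pow _ _ _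
      _ = c := by rw [h2, hm]
  · rintro ⟨h1, h2⟩
    refine ⟨h1, ?_⟩
    rw [map_pow, h2]

theorem nE_line {ℓ : ℕ} (hℓ : ℓ.Prime) (E₀ : Subgroup (MulAut V₀)) {c : V₀} (hc : c ^ ℓ = 1)
    {t : ℕ} (ht : t ∈ Finset.Icc 1 (ℓ - 1)) : nE E₀ (c ^ t) = nE E₀ c := by
  unfold nE
  rw [Es_line hℓ E₀ hc ht]

end line

theorem hrat (hlnk : HLnkStmt) (_hixe : HIxeStmt) (homr : HOmrStmt) : HRatStmt := by
  intro ℓ hℓ M hMm hM V₀ _ _ hV E₀ G _ _ B hB c _ χ hχ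
  have hp : ℓ.Prime := hℓ.out
  have hc : c ^ ℓ = 1 := hV c
  obtain ⟨n, hn0, hn⟩ := irr_one hχ.1
  have hu : (B.i c) ^ ℓ = 1 := by rw [← map_pow, hc, map_one]
  obtain ⟨m, hm⟩ := gv_sum M hp.pos hu (B.b (Subgroup.zpowers c))
    (Complex.isPrimitiveRoot_exp ℓ hp.ne_zero) hχ.1
  set ζ : ℂ := Complex.exp (2 * Real.pi * Complex.I / ℓ) with hζ
  have hζp : IsPrimitiveRoot ζ ℓ := Complex.isPrimitiveRoot_exp ℓ hp.ne_zero
  -- the terms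
  have h1 : ∀ t ∈ Finset.Icc 1 (ℓ - 1), cv (fc B ⊥ (c ^ t)) χ =
      ((Nat.card G : ℂ) / (Nat.card (B.C (Subgroup.zpowers c)) * n)) *
        ∑ i ∈ Finset.range ℓ, (m i : ℂ) * ζ ^ (i * t) := by
    intro t ht
    obtain ⟨a1, -, a3⟩ := hlnk ℓ M hM V₀ E₀ G B hB (c ^ t)
    obtain ⟨b1, -, -⟩ := hlnk ℓ M hM V₀ E₀ G B hB c
    rw [a3 χ hχ.1, a1, zpowers_line hp hc ht, ← b1, map_pow, hm t, hn, b1]
    ring
  -- the sum is rational
  have h2 : ∑ t ∈ Finset.Icc 1 (ℓ - 1), cv (fc B ⊥ (c ^ t)) χ =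
      (((Nat.card G : ℚ) / (Nat.card (B.C (Subgroup.zpowers c)) * n) *
        ((ℓ * m 0 - ∑ i ∈ Finset.range ℓ, m i : ℤ) : ℚ) : ℚ) : ℂ) := by
    rw [Finset.sum_congr rfl h1, ← Finset.mul_sum, Finset.sum_comm]
    have h3 : ∑ i ∈ Finset.range ℓ, ∑ t ∈ Finset.Icc 1 (ℓ - 1), (m i : ℂ) * ζ ^ (i * t) =
        (ℓ : ℂ) * m 0 - ∑ i ∈ Finset.range ℓ, (m i : ℂ) := by
      have h4 : ∀ i ∈ Finset.range ℓ, ∑ t ∈ Finset.Icc 1 (ℓ - 1), (m i : ℂ) * ζ ^ (i * t) =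
          (if i = 0 then (ℓ : ℂ) * m i else 0) - m i := by
        intro i hi
        rw [← Finset.mul_sum, pow_sum hp.pos hζp (Finset.mem_range.1 hi)]
        split_ifs with h0
        · ring
        · ring
      rw [Finset.sum_congr rfl h4, Finset.sum_sub_distrib, Finset.sum_ite_eq' (Finset.range ℓ) 0,
        if_pos (Finset.mem_range.2 hp.pos)]
    rw [h3]
    push_cast
    ring
  obtain ⟨r, hr⟩ : ∃ r : ℚ, ∑ t ∈ Finset.Icc 1 (ℓ - 1), cv (fc B ⊥ (c ^ t)) χ = (r : ℂ) :=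
    ⟨_, h2⟩
  -- the residue
  have h5 : ∀ t ∈ Finset.Icc 1 (ℓ - 1), cv (fc B ⊥ (c ^ t)) χ ∈ RM M := fun t _ =>
    (homr ℓ M hM V₀ E₀ G B hB (c ^ t) χ hχ).1
  have h6 : ∀ t ∈ Finset.Icc 1 (ℓ - 1), rr M (cv (fc B ⊥ (c ^ t)) χ) =
      ((nE E₀ c : ℕ) : FF M) := fun t ht => by
    rw [(homr ℓ M hM V₀ E₀ G B hB (c ^ t) χ hχ).2, nE_line hp E₀ hc ht]
  have hℓ0 : (ℓ : FF M) = 0 := by
    have := Ideal.Quotient.eq_zero_iff_mem.2 hM
    rwa [map_natCast] at this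
  have h7 : (r : ℂ) ∈ RM M := by rw [← hr]; exact Subring.sum_mem _ h5
  have h8 : rr M (r : ℂ) = -((nE E₀ c : ℕ) : FF M) := by
    rw [← hr, rr_sum _ _ h5, Finset.sum_congr rfl h6, Finset.sum_const, Nat.card_Icc,
      nsmul_eq_mul]
    have : ((ℓ - 1 + 1 - 1 : ℕ) : FF M) = -1 := by
      rw [show ℓ - 1 + 1 - 1 = ℓ - 1 by omega, Nat.cast_sub hp.one_lt.le, hℓ0]
      simp
    rw [this]
    ring
  have h9 : ((r + nE E₀ c : ℚ) : ℂ) ∈ RM M := by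
    push_cast
    exact Subring.add_mem _ h7 (rr_nat _).1
  have h10 : rr M ((r + nE E₀ c : ℚ) : ℂ) = 0 := by
    push_cast
    rw [rr_add h7 (rr_nat _).1, h8, (rr_nat _).2, neg_add_cancel]
  obtain ⟨q, hq, hqe⟩ := rat_res hM h9 h10
  refine ⟨q, hq, ?_⟩
  rw [hr, ← hqe]
  congr 1
  ring

end Pool.Agent.PP.SO.H24
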